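import Mathlib

/-!
# The (1,2)-shadowing question for every exponent

`n = 1`: if `X` is totally disconnected and the closed relation `G` contains the diagonal, then
`(X, G)` has the (1,2)-shadowing property.

`n ≥ 2`: there is a closed relation `G` on a countable totally disconnected compact space with
`Δ ⊆ Gⁿ` and `Δ ∩ Gᵐ = ∅` for `1 ≤ m < n`, which fails the (1,2)-shadowing property:
`X = (ℤ ∪ {∞}) × (ℕ ∪ {∞}) × ℤ/2n`, `F (a, k, t) = (a + 1, 2 k + 1, t + 1)` and `G` is the union of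
the graph of `F` and the inverse of the graph of `F^(n-1)`.
-/

open Set Filter Topology

namespace Pool.Agent.Results.MP_cda11a_an.EveryExponent

section Defs

variable {X : Type*}

/-- The relation `Gⁿ`. -/
def relPow (G : Set (X × X)) (n : ℕ) : Set (X × X) :=
  {p | ∃ x : ℕ → X, x 0 = p.1 ∧ x n = p.2 ∧ ∀ k < n, (x k, x (k + 1)) ∈ G}

/-- `(V,1)`-pseudo-orbits of `G`. -/
def PseudoOrbit1 (G V : Set (X × X)) (x : ℕ → X) : Prop :=
  ∀ m y, (x m, y) ∈ G → (y, x (m + 1)) ∈ V

/-- The point `y` `(U,2)`-shadows the sequence `x`. -/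
def Shadows2 (G U : Set (X × X)) (y : X) (x : ℕ → X) : Prop :=
  ∃ z : ℕ → X, z 0 = y ∧ (∀ m, (z m, z (m + 1)) ∈ G) ∧ ∀ m, (z m, x m) ∈ U

/-- The (1,2)-shadowing property; the entourages are the neighbourhoods of the diagonal. -/
def Shadowing12 [TopologicalSpace X] (G : Set (X × X)) : Prop :=
  ∀ U ∈ 𝓝ˢ (diagonal X), ∃ V ∈ 𝓝ˢ (diagonal X), ∀ x : ℕ → X, PseudoOrbit1 G V x →
    ∃ y, Shadows2 G U y x

end Defs

/-! ### The exponent one -/

theorem exists_clopen_entourage {X : Type*} [TopologicalSpace X] [CompactSpace X] [T2Space X]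
    [TotallyDisconnectedSpace X] (U : Set (X × X)) (hU : U ∈ 𝓝ˢ (diagonal X)) :
    ∃ V ∈ 𝓝ˢ (diagonal X), V ⊆ U ∧ ∀ a b c, (a, b) ∈ V → (b, c) ∈ V → (a, c) ∈ V := by
  have hU' : ∀ x : X, U ∈ 𝓝 (x, x) := fun x => mem_nhdsSet_iff_forall.1 hU (x, x) rfl
  have hC : ∀ x : X, ∃ C : Set X, IsClopen C ∧ x ∈ C ∧ C ×ˢ C ⊆ U := by
    intro x
    obtain ⟨W, W2, hWo, hxW, hW2o, hxW2, hsub⟩ := mem_nhds_prod_iff'.1 (hU' x)
    obtain ⟨C, hCc, hxC, hCW⟩ := compact_exists_isClopen_in_isOpen (hWo.inter hW2o) ⟨hxW, hxW2⟩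
    exact ⟨C, hCc, hxC, (Set.prod_mono (fun z hz => (hCW hz).1) (fun z hz => (hCW hz).2)).trans hsub⟩
  choose C hCc hxC hCU using hC
  obtain ⟨s, hs⟩ := isCompact_univ.elim_finite_subcover C (fun x => (hCc x).isOpen)
    (fun x _ => mem_iUnion.2 ⟨x, hxC x⟩)
  refine ⟨{p | ∀ i ∈ s, (p.1 ∈ C i ↔ p.2 ∈ C i)}, ?_, ?_, ?_⟩
  · have ho : IsOpen {p : X × X | ∀ i ∈ s, (p.1 ∈ C i ↔ p.2 ∈ C i)} := by
      have : {p : X × X | ∀ i ∈ s, (p.1 ∈ C i ↔ p.2 ∈ C i)}
          = ⋂ i ∈ s, {p : X × X | p.1 ∈ C i ↔ p.2 ∈ C i} := by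
        ext p; simp
      rw [this]
      refine isOpen_biInter_finset (fun i _ => ?_)
      have h1 : IsClopen {p : X × X | p.1 ∈ C i} := (hCc i).preimage continuous_fst
      have h2 : IsClopen {p : X × X | p.2 ∈ C i} := (hCc i).preimage continuous_snd
      have : {p : X × X | p.1 ∈ C i ↔ p.2 ∈ C i} = ({p : X × X | p.1 ∈ C i} ∩ {p | p.2 ∈ C i})
          ∪ ({p : X × X | p.1 ∈ C i}ᶜ ∩ {p : X × X | p.2 ∈ C i}ᶜ) := by
        ext p
        simp only [mem_ofPred_eq, mem_union, mem_inter_iff, mem_compl_iff]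
        tauto
      rw [this]
      exact (h1.isOpen.inter h2.isOpen).union (h1.compl.isOpen.inter h2.compl.isOpen)
    rw [ho.mem_nhdsSet]
    rintro ⟨a, b⟩ hab i _
    have : a = b := hab
    subst this
    exact Iff.rfl
  · rintro ⟨a, b⟩ hab
    obtain ⟨i, hi, hai⟩ : ∃ i ∈ s, a ∈ C i := by
      have := hs (mem_univ a)
      simpa using this
    exact hCU i ⟨hai, (hab i hi).1 hai⟩
  · intro a b c hab hbc i hi
    exact (hab i hi).trans (hbc i hi)

theorem shadowing_of_diag {X : Type*} [TopologicalSpace X] [CompactSpace X] [T2Space X]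
    [TotallyDisconnectedSpace X] (G : Set (X × X)) (hG : ∀ x, (x, x) ∈ relPow G 1) :
    Shadowing12 G := by
  have hG' : ∀ x, (x, x) ∈ G := by
    intro x
    obtain ⟨y, h0, h1, h⟩ := hG x
    have := h 0 (by norm_num)
    simp only at h0 h1
    rw [h0] at this
    simp only [zero_add] at this
    rwa [h1] at this
  intro U hU
  obtain ⟨V, hV, hVU, htrans⟩ := exists_clopen_entourage U hU
  refine ⟨V, hV, fun x hx => ⟨x 0, fun _ => x 0, rfl, fun m => hG' _, fun m => ?_⟩⟩
  apply hVU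
  have hrefl : ∀ a, (a, a) ∈ V := fun a =>
    mem_of_mem_nhds (mem_nhdsSet_iff_forall.1 hV (a, a) rfl)
  induction m with
  | zero => exact hrefl _
  | succ m ih => exact htrans _ _ _ ih (hx m (x m) (hG' _))

/-! ### The examples -/

variable (r : ℕ)

instance : NeZero (2 * (r + 1)) := ⟨by omega⟩

/-- The space (the exponent is `r + 1`). -/
abbrev X := OnePoint ℤ × OnePoint ℕ × ZMod (2 * (r + 1))

/-- The map. -/
def F (p : X r) : X r :=
  (OnePoint.map (· + 1) p.1, OnePoint.map (fun k => 2 * k + 1) p.2.1, p.2.2 + 1)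

theorem tendsto_some {Y : Type*} [TopologicalSpace Y] [DiscreteTopology Y] {g : ℕ → Y}
    (hg : Function.Injective g) : Tendsto (fun n => (g n : OnePoint Y)) atTop (𝓝 OnePoint.infty) := by
  refine OnePoint.tendsto_coe_infty.comp ?_
  rw [coclosedCompact_eq_cocompact, cocompact_eq_cofinite, ← Nat.cofinite_eq_atTop]
  exact hg.tendsto_cofinite

theorem continuous_map' {Y : Type*} [TopologicalSpace Y] [DiscreteTopology Y] {g : Y → Y}
    (hg : Function.Injective g) : Continuous (OnePoint.map g) := by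
  refine OnePoint.continuous_map continuous_of_discreteTopology ?_
  rw [coclosedCompact_eq_cocompact, cocompact_eq_cofinite]
  exact hg.tendsto_cofinite

theorem continuous_F : Continuous (F r) := by
  have h1 : Continuous (OnePoint.map (fun n : ℤ => n + 1)) :=
    continuous_map' (add_left_injective 1)
  have h2 : Continuous (OnePoint.map (fun k : ℕ => 2 * k + 1)) :=
    continuous_map' (fun a b h => by simpa using h)
  exact (h1.comp continuous_fst).prodMk ((h2.comp (continuous_fst.comp continuous_snd)).prodMk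
    ((continuous_of_discreteTopology (f := fun t : ZMod (2 * (r + 1)) => t + 1)).comp
      (continuous_snd.comp continuous_snd)))

/-- The relation: the graph of `F` and the inverse of the graph of `F^r`. -/
def G : Set (X r × X r) := {p | p.2 = F r p.1 ∨ p.1 = (F r)^[r] p.2}

theorem isClosed_G : IsClosed (G r) :=
  (isClosed_eq continuous_snd ((continuous_F r).comp continuous_fst)).union
    (isClosed_eq continuous_fst (((continuous_F r).iterate r).comp continuous_snd))

theorem diag_sub : ∀ x : X r, (x, x) ∈ relPow (G r) (r + 1) := by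
  intro x
  refine ⟨fun k => if k = r + 1 then x else (F r)^[k] x, ?_, by simp, fun k hk => ?_⟩
  · simp
  · have hk' : k ≠ r + 1 := by omega
    simp only [hk', if_false]
    by_cases h : k = r
    · right
      subst h
      simp
    · left
      have : k + 1 ≠ r + 1 := by omega
      simp only [this, if_false]
      rw [Function.iterate_succ_apply']

theorem clock_iterate (p : X r) (m : ℕ) : ((F r)^[m] p).2.2 = p.2.2 + m := by
  induction m with
  | zero => simp
  | succ m ih =>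
    rw [Function.iterate_succ_apply']
    show ((F r)^[m] p).2.2 + 1 = _
    rw [ih]; push_cast; ring

/-- The clock modulo `r + 1`. -/
def red : ZMod (2 * (r + 1)) →+* ZMod (r + 1) := ZMod.castHom (Dvd.intro_left 2 rfl) (ZMod (r + 1))

theorem clock_step (p q : X r) (h : (p, q) ∈ G r) : red r q.2.2 = red r p.2.2 + 1 := by
  rcases h with h | h
  · have : q.2.2 = p.2.2 + 1 := congrArg (fun p : X r => p.2.2) h
    rw [this, map_add, map_one]
  · have : p.2.2 = q.2.2 + r := by
      have := congrArg (fun p : X r => p.2.2) h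
      simp only at this
      rw [this, clock_iterate]
    rw [this, map_add, map_natCast, add_assoc]
    have h0 : (r : ZMod (r + 1)) + 1 = 0 := by
      have := ZMod.natCast_self (r + 1)
      push_cast at this
      exact this
    rw [h0, add_zero]

theorem not_diag (m : ℕ) (h1 : 1 ≤ m) (h2 : m < r + 1) (x : X r) : (x, x) ∉ relPow (G r) m := by
  rintro ⟨y, h0, hm, hy⟩
  have key : ∀ k ≤ m, red r (y k).2.2 = red r (y 0).2.2 + k := by
    intro k hk
    induction k with
    | zero => simp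
    | succ k ih =>
      rw [clock_step r _ _ (hy k (by omega)), ih (by omega)]
      push_cast; ring
  have := key m le_rfl
  rw [h0, hm] at this
  have h3 : (m : ZMod (r + 1)) = 0 := by simpa using this.symm
  rw [ZMod.natCast_eq_zero_iff] at h3
  exact absurd (Nat.le_of_dvd (by omega) h3) (by omega)

/-- The integer coordinate of the periodic pseudo-orbit. -/
def nn (N m : ℕ) : ℤ := ((m % (2 * N + 1) : ℕ) : ℤ) - N

/-- The periodic pseudo-orbit. -/
def po (N K m : ℕ) : X r := ((nn N m : ℤ), ((2 * K : ℕ) : OnePoint ℕ), (m : ZMod (2 * (r + 1))))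

theorem nn_succ (N m : ℕ) : nn N (m + 1) = nn N m + 1 ∨ (nn N m = N ∧ nn N (m + 1) = -N) := by
  unfold nn
  by_cases h : m % (2 * N + 1) = 2 * N
  · right
    have h2 : (m + 1) % (2 * N + 1) = 0 := by
      rw [Nat.add_mod, h]
      rcases Nat.eq_zero_or_pos N with h0 | h0
      · subst h0; simp
      · rw [Nat.mod_eq_of_lt (by omega : 1 < 2 * N + 1)]; simp
    rw [h, h2]
    constructor
    · push_cast; ring
    · simp
  · left
    have hlt := Nat.mod_lt m (by omega : 0 < 2 * N + 1)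
    have h2 : (m + 1) % (2 * N + 1) = m % (2 * N + 1) + 1 := by
      rw [Nat.add_mod, Nat.mod_eq_of_lt (a := 1) (by omega : 1 < 2 * N + 1)]
      exact Nat.mod_eq_of_lt (by omega)
    rw [h2]
    push_cast
    ring

theorem nn_range (N m : ℕ) : -(N : ℤ) ≤ nn N m ∧ nn N m ≤ N := by
  unfold nn
  have hlt := Nat.mod_lt m (by omega : 0 < 2 * N + 1)
  omega

theorem F_po (N K m : ℕ) :
    F r (po r N K m) = (((nn N m + 1 : ℤ) : OnePoint ℤ), ((4 * K + 1 : ℕ) : OnePoint ℕ),
      ((m + 1 : ℕ) : ZMod (2 * (r + 1)))) := by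
  unfold F po
  have h1 : (OnePoint.map (fun n : ℤ => n + 1) ((nn N m : ℤ) : OnePoint ℤ))
      = ((nn N m + 1 : ℤ) : OnePoint ℤ) := rfl
  have h2 : (OnePoint.map (fun k : ℕ => 2 * k + 1) ((2 * K : ℕ) : OnePoint ℕ))
      = ((4 * K + 1 : ℕ) : OnePoint ℕ) := by
    show ((2 * (2 * K) + 1 : ℕ) : OnePoint ℕ) = _
    congr 1
    ring
  have h3 : (m : ZMod (2 * (r + 1))) + 1 = ((m + 1 : ℕ) : ZMod (2 * (r + 1))) := by push_cast; ring
  simp only [h1, h2, h3]

theorem G_po (hr : 1 ≤ r) (N K m : ℕ) (y : X r) (hy : (po r N K m, y) ∈ G r) :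
    y = F r (po r N K m) := by
  rcases hy with h | h
  · exact h
  · exfalso
    obtain ⟨s, rfl⟩ := Nat.exists_eq_add_of_le' hr
    rw [Function.iterate_succ_apply'] at h
    set w := (F (s + 1))^[s] y with hw
    have h2 : ((2 * K : ℕ) : OnePoint ℕ) = OnePoint.map (fun k => 2 * k + 1) w.2.1 :=
      congrArg (fun p : X (s + 1) => p.2.1) h
    induction hh : w.2.1 using OnePoint.rec with
    | infty =>
      rw [hh] at h2
      exact OnePoint.coe_ne_infty _ h2
    | coe k =>
      rw [hh] at h2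
      have h3 : (2 * K : ℕ) = 2 * k + 1 := OnePoint.coe_injective h2
      omega

theorem isClopen_zero : IsClopen ({((0 : ℤ) : OnePoint ℤ)} : Set (OnePoint ℤ)) := by
  refine ⟨isClosed_singleton, ?_⟩
  have := OnePoint.isOpenEmbedding_coe.isOpenMap ({0} : Set ℤ) (isOpen_discrete _)
  simpa using this

/-- The entourage `U`. -/
def U : Set (X r × X r) :=
  {p | (p.1.1 = ((0 : ℤ) : OnePoint ℤ) ↔ p.2.1 = ((0 : ℤ) : OnePoint ℤ)) ∧ p.1.2.2 = p.2.2.2}

theorem U_mem : U r ∈ 𝓝ˢ (diagonal (X r)) := by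
  have ho : IsOpen (U r) := by
    have h1 : IsClopen {p : X r × X r | p.1.1 = ((0 : ℤ) : OnePoint ℤ)} :=
      isClopen_zero.preimage (continuous_fst.comp continuous_fst)
    have h2 : IsClopen {p : X r × X r | p.2.1 = ((0 : ℤ) : OnePoint ℤ)} :=
      isClopen_zero.preimage (continuous_fst.comp continuous_snd)
    have h3 : IsOpen {p : X r × X r | p.1.2.2 = p.2.2.2} := by
      have hc : Continuous (fun p : X r × X r => (p.1.2.2, p.2.2.2)) :=
        (continuous_snd.comp (continuous_snd.comp continuous_fst)).prodMk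
          (continuous_snd.comp (continuous_snd.comp continuous_snd))
      exact (isOpen_discrete {q : ZMod (2 * (r + 1)) × ZMod (2 * (r + 1)) | q.1 = q.2}).preimage hc
    have : U r = (({p : X r × X r | p.1.1 = ((0 : ℤ) : OnePoint ℤ)}
          ∩ {p : X r × X r | p.2.1 = ((0 : ℤ) : OnePoint ℤ)})
        ∪ ({p : X r × X r | p.1.1 = ((0 : ℤ) : OnePoint ℤ)}ᶜ
          ∩ {p : X r × X r | p.2.1 = ((0 : ℤ) : OnePoint ℤ)}ᶜ))
        ∩ {p : X r × X r | p.1.2.2 = p.2.2.2} := by
      ext p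
      simp only [U, mem_ofPred_eq, mem_inter_iff, mem_union, mem_compl_iff]
      tauto
    rw [this]
    exact ((h1.isOpen.inter h2.isOpen).union (h1.compl.isOpen.inter h2.compl.isOpen)).inter h3
  rw [ho.mem_nhdsSet]
  rintro ⟨a, b⟩ hab
  have : a = b := hab
  subst this
  exact ⟨Iff.rfl, rfl⟩

theorem exists_po (hr : 1 ≤ r) (V : Set (X r × X r)) (hV : V ∈ 𝓝ˢ (diagonal (X r))) :
    ∃ N K : ℕ, PseudoOrbit1 (G r) V (po r N K) := by
  have hV' : ∀ x : X r, V ∈ 𝓝 (x, x) := fun x => mem_nhdsSet_iff_forall.1 hV (x, x) rfl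
  -- the jump at infinity
  have t1 : Tendsto (fun N : ℕ => (((N + 1 : ℤ)) : OnePoint ℤ)) atTop (𝓝 OnePoint.infty) :=
    tendsto_some (g := fun N : ℕ => (N + 1 : ℤ)) (fun a b h => by simpa using h)
  have t2 : Tendsto (fun N : ℕ => (((-N : ℤ)) : OnePoint ℤ)) atTop (𝓝 OnePoint.infty) :=
    tendsto_some (g := fun N : ℕ => (-N : ℤ)) (fun a b h => by simpa using h)
  have t3 : Tendsto (fun K : ℕ => ((4 * K + 1 : ℕ) : OnePoint ℕ)) atTop (𝓝 OnePoint.infty) :=
    tendsto_some (g := fun K : ℕ => 4 * K + 1) (fun a b h => by simpa using h)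
  have t4 : Tendsto (fun K : ℕ => ((2 * K : ℕ) : OnePoint ℕ)) atTop (𝓝 OnePoint.infty) :=
    tendsto_some (g := fun K : ℕ => 2 * K) (fun a b h => by simpa using h)
  have jump : ∀ t : ZMod (2 * (r + 1)), ∀ᶠ q : ℕ × ℕ in atTop ×ˢ atTop,
      ((((((q.1 : ℤ) + 1 : ℤ) : OnePoint ℤ), ((4 * q.2 + 1 : ℕ) : OnePoint ℕ), t) : X r),
        ((((-(q.1 : ℤ) : ℤ) : OnePoint ℤ), ((2 * q.2 : ℕ) : OnePoint ℕ), t) : X r)) ∈ V := by
    intro t
    have hl : Tendsto (fun q : ℕ × ℕ =>
        ((((((q.1 : ℤ) + 1 : ℤ) : OnePoint ℤ), ((4 * q.2 + 1 : ℕ) : OnePoint ℕ), t) : X r),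
        ((((-(q.1 : ℤ) : ℤ) : OnePoint ℤ), ((2 * q.2 : ℕ) : OnePoint ℕ), t) : X r)))
        (atTop ×ˢ atTop)
        (𝓝 ((OnePoint.infty, OnePoint.infty, t), (OnePoint.infty, OnePoint.infty, t))) :=
      ((t1.comp tendsto_fst).prodMk_nhds ((t3.comp tendsto_snd).prodMk_nhds
        tendsto_const_nhds)).prodMk_nhds
      ((t2.comp tendsto_fst).prodMk_nhds ((t4.comp tendsto_snd).prodMk_nhds
        tendsto_const_nhds))
    exact hl (hV' _)
  have jump' : ∀ᶠ q : ℕ × ℕ in atTop ×ˢ atTop, ∀ t : ZMod (2 * (r + 1)),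
      ((((((q.1 : ℤ) + 1 : ℤ) : OnePoint ℤ), ((4 * q.2 + 1 : ℕ) : OnePoint ℕ), t) : X r),
        ((((-(q.1 : ℤ) : ℤ) : OnePoint ℤ), ((2 * q.2 : ℕ) : OnePoint ℕ), t) : X r)) ∈ V :=
    eventually_all.2 jump
  obtain ⟨N, hN⟩ := jump'.curry.exists
  have step : ∀ n : ℤ, ∀ t : ZMod (2 * (r + 1)), ∀ᶠ K : ℕ in atTop,
      ((((n : OnePoint ℤ), ((4 * K + 1 : ℕ) : OnePoint ℕ), t) : X r),
        (((n : OnePoint ℤ), ((2 * K : ℕ) : OnePoint ℕ), t) : X r)) ∈ V := by
    intro n t
    have hl : Tendsto (fun K : ℕ => ((((n : OnePoint ℤ), ((4 * K + 1 : ℕ) : OnePoint ℕ), t) : X r),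
        (((n : OnePoint ℤ), ((2 * K : ℕ) : OnePoint ℕ), t) : X r))) atTop
        (𝓝 (((n : OnePoint ℤ), OnePoint.infty, t), ((n : OnePoint ℤ), OnePoint.infty, t))) :=
      (tendsto_const_nhds.prodMk_nhds (t3.prodMk_nhds tendsto_const_nhds)).prodMk_nhds
      (tendsto_const_nhds.prodMk_nhds (t4.prodMk_nhds tendsto_const_nhds))
    exact hl (hV' _)
  have step' : ∀ᶠ K : ℕ in atTop, ∀ n ∈ Finset.Icc (-(N : ℤ)) (N + 1), ∀ t : ZMod (2 * (r + 1)),
      ((((n : OnePoint ℤ), ((4 * K + 1 : ℕ) : OnePoint ℕ), t) : X r),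
        (((n : OnePoint ℤ), ((2 * K : ℕ) : OnePoint ℕ), t) : X r)) ∈ V := by
    rw [Finset.eventually_all]
    intro n _
    rw [eventually_all]
    exact step n
  obtain ⟨K, hK1, hK2⟩ := (hN.and step').exists
  refine ⟨N, K, fun m y hy => ?_⟩
  rw [G_po r hr N K m y hy, F_po]
  rcases nn_succ N m with h | ⟨h, h'⟩
  · have := hK2 (nn N m + 1) (by
      rw [Finset.mem_Icc]
      have := nn_range N m
      omega) ((m + 1 : ℕ) : ZMod (2 * (r + 1)))
    rw [po, h]
    exact this
  · have := hK1 ((m + 1 : ℕ) : ZMod (2 * (r + 1)))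
    rw [po, h', h]
    exact this

theorem not_shadowing (hr : 1 ≤ r) : ¬ Shadowing12 (G r) := by
  intro h
  obtain ⟨V, hV, hsh⟩ := h (U r) (U_mem r)
  obtain ⟨N, K, hpo⟩ := exists_po r hr V hV
  obtain ⟨y, z, -, hz, hzU⟩ := hsh _ hpo
  have hfwd : ∀ m, z (m + 1) = F r (z m) := by
    intro m
    rcases hz m with h | h
    · exact h
    · exfalso
      have h1 : (z m).2.2 = (m : ZMod (2 * (r + 1))) := (hzU m).2
      have h2 : (z (m + 1)).2.2 = ((m + 1 : ℕ) : ZMod (2 * (r + 1))) := (hzU (m + 1)).2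
      have h3 : (z m).2.2 = (z (m + 1)).2.2 + r := by
        have := congrArg (fun p : X r => p.2.2) h
        simp only at this
        rw [this, clock_iterate]
      rw [h1, h2] at h3
      have h4 : ((r + 1 : ℕ) : ZMod (2 * (r + 1))) = 0 := by
        have h5 : (m : ZMod (2 * (r + 1))) + 0 = m + ((r + 1 : ℕ) : ZMod (2 * (r + 1))) := by
          rw [add_zero]
          calc (m : ZMod (2 * (r + 1))) = ((m + 1 : ℕ) : ZMod (2 * (r + 1))) + r := h3
            _ = _ := by push_cast; ring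
        exact (add_left_cancel h5).symm
      rw [ZMod.natCast_eq_zero_iff] at h4
      exact absurd (Nat.le_of_dvd (by omega) h4) (by omega)
  have h0 : nn N N = 0 := by
    unfold nn
    rw [Nat.mod_eq_of_lt (by omega)]
    simp
  have h0' : nn N (N + (2 * N + 1)) = 0 := by
    unfold nn
    rw [Nat.add_mod_right, Nat.mod_eq_of_lt (by omega)]
    simp
  have hz0 : (z N).1 = ((0 : ℤ) : OnePoint ℤ) := (hzU N).1.2 (by
    show ((nn N N : ℤ) : OnePoint ℤ) = _
    rw [h0])
  have hz1 : (z (N + (2 * N + 1))).1 = ((0 : ℤ) : OnePoint ℤ) := (hzU _).1.2 (by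
    show ((nn N (N + (2 * N + 1)) : ℤ) : OnePoint ℤ) = _
    rw [h0'])
  have hrun : ∀ j : ℕ, (z (N + j)).1 = ((j : ℤ) : OnePoint ℤ) := by
    intro j
    induction j with
    | zero => simpa using hz0
    | succ j ih =>
      have : (z (N + (j + 1))).1 = OnePoint.map (· + 1) (z (N + j)).1 := by
        rw [← add_assoc, hfwd]; rfl
      rw [this, ih]
      show (((j : ℤ) + 1 : ℤ) : OnePoint ℤ) = _
      congr 1
  rw [hrun] at hz1
  have h5 : ((2 * N + 1 : ℕ) : ℤ) = 0 := OnePoint.coe_injective hz1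
  omega

/-- **The answer to Q1 for every exponent.** If `X` is a totally disconnected compact Hausdorff
space and the diagonal is contained in `G = G¹`, then `(X, G)` has the (1,2)-shadowing property.
For every `n ≥ 2` there are a countable totally disconnected compact Hausdorff space `X` and a
(non-empty) closed relation `G` on `X` such that `Gⁿ` contains the diagonal, `Gᵐ` is disjoint from
the diagonal for `1 ≤ m < n`, and `(X,G)` fails the (1,2)-shadowing property. -/
theorem result.{u} :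
    (∀ (X : Type u) [TopologicalSpace X] [CompactSpace X] [T2Space X] [TotallyDisconnectedSpace X]
      (G : Set (X × X)), (∀ x, (x, x) ∈ relPow G 1) → Shadowing12 G) ∧
    ∀ n : ℕ, 2 ≤ n → ∃ (X : Type) (_ : TopologicalSpace X) (_ : CompactSpace X) (_ : T2Space X)
      (_ : TotallyDisconnectedSpace X) (_ : Nonempty X) (_ : Countable X) (G : Set (X × X)),
      IsClosed G ∧ G.Nonempty ∧ (∀ x, (x, x) ∈ relPow G n) ∧
      (∀ m, 1 ≤ m → m < n → ∀ x, (x, x) ∉ relPow G m) ∧ ¬ Shadowing12 G := by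
  refine ⟨fun X _ _ _ _ G hG => shadowing_of_diag G hG, fun n hn => ?_⟩
  obtain ⟨r, rfl⟩ : ∃ r, n = r + 1 := ⟨n - 1, by omega⟩
  have hc : Countable (X r) := by
    have : Countable (OnePoint ℤ) := inferInstanceAs (Countable (Option ℤ))
    have : Countable (OnePoint ℕ) := inferInstanceAs (Countable (Option ℕ))
    infer_instance
  refine ⟨X r, inferInstance, inferInstance, inferInstance, inferInstance, inferInstance, hc, G r,
    isClosed_G r, ?_, diag_sub r, not_diag r, not_shadowing r (by omega)⟩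
  exact ⟨(((0 : ℤ), (0 : ℕ), 0), F r ((0 : ℤ), (0 : ℕ), 0)), Or.inl rfl⟩

end Pool.Agent.Results.MP_cda11a_an.EveryExponent
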